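import Pool.Agent.Work.MP_02d86d_gt.B.Ell

/-! If all shape limits from infinitely many starts are ellipsoids then all limits are centred
balls. -/

set_option autoImplicit false

namespace MP_02d86d_gt

open MeasureTheory Set Filter Topology Metric

variable {n : ℕ}

/-- If every shape limit along infinitely many tails is an ellipsoid, then the symmetrals
converge to centred balls. -/
theorem Iter.ball_of_frequently (hn : 2 ≤ n) {u : ℕ → EuclideanSpace ℝ (Fin n)}
    (hE : ∀ m : ℕ, ∃ j : ℕ, m ≤ j ∧ ∀ (R : ℝ) (K : ℕ → Set (EuclideanSpace ℝ (Fin n))),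
      Iter R (fun i => u (j + i)) K →
      ∀ (χ : ℕ → (EuclideanSpace ℝ (Fin n) ≃ₗᵢ[ℝ] EuclideanSpace ℝ (Fin n)))
        (L : Set (EuclideanSpace ℝ (Fin n))), IsCompact L → L.Nonempty →
        Tendsto (fun i => hausdorffDist (χ i '' K i) L) atTop (𝓝 0) →
        ∃ A : AffineEquiv ℝ (EuclideanSpace ℝ (Fin n)) (EuclideanSpace ℝ (Fin n)),
          L = A '' closedBall 0 1)
    {j : ℕ} {R : ℝ} {K : ℕ → Set (EuclideanSpace ℝ (Fin n))}
    (h : Iter R (fun i => u (j + i)) K) :
    ∃ r : ℝ, 0 < r ∧ Tendsto (fun i => hausdorffDist (K i) (closedBall 0 r)) atTop (𝓝 0) := by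
  obtain ⟨ψ, L, hL, hLc, hLv, hLn, hLR, hlim⟩ := h.shape
  have hLi : (interior L).Nonempty :=
    interior_nonempty_of_volume hLc (by rw [hLv]; exact h.pos)
  suffices hB : ∃ r : ℝ, 0 < r ∧ L = closedBall 0 r by
    obtain ⟨r, hr, rfl⟩ := hB
    refine ⟨r, hr, hlim.congr fun i => ?_⟩
    rw [← hausdorffDist_image (ψ i).isometry (s := K i), image_closedBall_zero]
  refine ball_of_radial hL hLc hLi fun x0 hx0 => ?_
  by_contra hne
  have hr : 0 < ‖x0‖ := by
    rw [norm_pos_iff]
    rintro rfl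
    apply hne
    rw [norm_zero, closedBall_zero]
    exact singleton_subset_iff.2 (interior_subset hx0)
  set r := ‖x0‖ with hrdef
  have hM : IsCompact (L ∩ closedBall 0 r) := hL.inter_right isClosed_closedBall
  have hMc : Convex ℝ (L ∩ closedBall 0 r) := hLc.inter (convex_closedBall 0 r)
  have hMi : (interior (L ∩ closedBall 0 r)).Nonempty := interior_inter hx0 hr
  have hM0 : volume (L ∩ closedBall 0 r) ≠ 0 :=
    ((isOpen_interior.measure_pos volume hMi).trans_le (measure_mono interior_subset)).ne'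
  have hV : Tendsto (fun i => volume (K i ∩ closedBall 0 r)) atTop
      (𝓝 (volume (L ∩ closedBall 0 r))) := by
    have h1 := tendsto_volume_inter (K := fun i => ψ i '' K i) (R := R)
      (fun i => (h.ne _).image _) hLn
      (fun i => (h.cpt _).image (LinearIsometryEquiv.continuous _)) hL
      (fun i => (h.cvx _).linear_image (ψ i).toLinearEquiv.toLinearMap) hLc
      (fun i => image_subset_ball (h.sub _) _) hlim r
    exact h1.congr fun i => volume_image_inter (ψ i) (h.cpt i) r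
  obtain ⟨N0, hN0⟩ := eventually_atTop.1 (hV.eventually_ne hM0)
  have key : ∀ k : ℕ, ∃ (q : ℕ) (E : Set (EuclideanSpace ℝ (Fin n))), k ≤ q ∧ IsCompact E ∧
      Convex ℝ E ∧ E.Nonempty ∧ E ⊆ L ∩ closedBall 0 r ∧
      volume E = volume (K (N0 + q) ∩ closedBall 0 r) ∧
      ∃ A : AffineEquiv ℝ (EuclideanSpace ℝ (Fin n)) (EuclideanSpace ℝ (Fin n)),
        E = A '' closedBall 0 1 := by
    intro k
    obtain ⟨j', hj', hE'⟩ := hE (j + (N0 + k))
    obtain ⟨q, rfl⟩ : ∃ q, j' = j + (N0 + q) := ⟨j' - (j + N0), by omega⟩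
    obtain ⟨K', L', χ, a1, -, -, a4, a5, a6, a7, a8, a9⟩ :=
      h.trunc_limit hL hLn hlim (r := r) (N0 + q) (hN0 _ (Nat.le_add_right _ _))
    refine ⟨q, L', by omega, a4, a5, a6, a7, a8, ?_⟩
    refine hE' r K' ?_ χ L' a4 a6 a9
    have h2 : (fun i => u (j + (N0 + q) + i)) = fun i => u (j + (N0 + q + i)) := by
      funext i
      rw [add_assoc]
    rw [h2]
    exact a1
  choose q E e0 e1 e2 e3 e4 e5 e6 using key
  have hvE : Tendsto (fun k => volume (E k)) atTop (𝓝 (volume (L ∩ closedBall 0 r))) := by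
    have h1 : Tendsto (fun k => N0 + q k) atTop atTop :=
      tendsto_atTop_mono (fun k => (e0 k).trans (Nat.le_add_left _ _)) tendsto_id
    exact (hV.comp h1).congr fun k => (e5 k).symm
  obtain ⟨φ, -, hφ⟩ := tendsto_of_volume hM hMc hMi e1 e2 e3 e4 hvE
  obtain ⟨d, hd, hdL⟩ := Metric.isOpen_iff.1 isOpen_interior x0 hx0
  apply hne
  refine (patch hn hr hM hMc inter_subset_right hrdef.symm hd (fun w hw hwd => ?_)
    (fun k => e6 (φ k)) (fun k => e4 (φ k)) hφ).trans inter_subset_left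
  refine ⟨interior_subset (hdL ?_), ?_⟩
  · rw [mem_ball, dist_eq_norm]
    exact hwd
  · rw [mem_closedBall_zero_iff, hw]

end MP_02d86d_gt
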