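import Pool.Agent.Work.MP_02d86d_gt.Main

/-! A limit point of the shapes of iterated Steiner symmetrals is the limit. -/

set_option autoImplicit false

namespace MP_02d86d_gt

open MeasureTheory Set Filter Topology Metric

variable {n : ℕ}

private theorem cluster_volume_image (ψ : EuclideanSpace ℝ (Fin n) ≃ₗᵢ[ℝ] EuclideanSpace ℝ (Fin n))
    {K : Set (EuclideanSpace ℝ (Fin n))} (hK : IsCompact K) : volume (ψ '' K) = volume K := by
  rw [LinearIsometryEquiv.image_eq_preimage_symm]
  exact (LinearIsometryEquiv.measurePreserving _).measure_preimage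
    hK.measurableSet.nullMeasurableSet

/-- If the images of a subsequence converge to `L`, then `L` is the limit of the shapes. -/
theorem Iter.cluster {R : ℝ} {u : ℕ → EuclideanSpace ℝ (Fin n)}
    {K : ℕ → Set (EuclideanSpace ℝ (Fin n))} (h : Iter R u K) {φ : ℕ → ℕ} (hφ : StrictMono φ)
    (ψ : ℕ → (EuclideanSpace ℝ (Fin n) ≃ₗᵢ[ℝ] EuclideanSpace ℝ (Fin n)))
    {L : Set (EuclideanSpace ℝ (Fin n))} (hL : IsCompact L) (hLc : Convex ℝ L)
    (hLn : L.Nonempty) (hLR : L ⊆ closedBall 0 R)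
    (hlim : Tendsto (fun i => hausdorffDist (ψ i '' K (φ i)) L) atTop (𝓝 0)) :
    volume L = volume (K 0) ∧
      ∃ χ : ℕ → (EuclideanSpace ℝ (Fin n) ≃ₗᵢ[ℝ] EuclideanSpace ℝ (Fin n)),
        Tendsto (fun i => hausdorffDist (χ i '' K i) L) atTop (𝓝 0) := by
  have d1 : ∀ i, IsCompact (ψ i '' K (φ i)) := fun i =>
    (h.cpt _).image (LinearIsometryEquiv.continuous _)
  have d2 : ∀ i, Convex ℝ (ψ i '' K (φ i)) := fun i =>
    (h.cvx _).linear_image (ψ i).toLinearEquiv.toLinearMap
  have d3 : ∀ i, (ψ i '' K (φ i)).Nonempty := fun i => (h.ne _).image _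
  have d4 : ∀ i, ψ i '' K (φ i) ⊆ closedBall 0 R := fun i => image_subset_ball (h.sub _) _
  have hvL : volume L = volume (K 0) := by
    have h1 := tendsto_volume d3 hLn d1 hL d2 hLc d4 hlim
    have h2 : (fun i => volume (ψ i '' K (φ i))) = fun _ => volume (K 0) := funext fun i => by
      rw [cluster_volume_image (ψ i) (h.cpt _), h.vol]
    rw [h2] at h1
    exact tendsto_nhds_unique h1 tendsto_const_nhds
  refine ⟨hvL, ?_⟩
  obtain ⟨e, he⟩ := h.orb_tendsto hL hLR
  have he0 : e = 0 := by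
    have h1 := tendsto_F d3 hLn d1 hL d2 hLc d4 hL hlim
    rw [F_self] at h1
    have h2 : Tendsto (fun i => orb L (K (φ i))) atTop (𝓝 e) := he.comp hφ.tendsto_atTop
    have h3 : Tendsto (fun i => orb L (K (φ i))) atTop (𝓝 0) := by
      refine squeeze_zero (fun i => orb_nonneg _ _) (fun i => ?_) h1
      have h4 := orb_le L (K (φ i)) (ψ i).symm
      have h5 := F_image (ψ i) (K (φ i)) ((ψ i).symm '' L)
      have h6 : ψ i '' ((ψ i).symm '' L) = L := by
        rw [image_image]
        simp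
      rw [h6] at h5
      rwa [← h5] at h4
    exact tendsto_nhds_unique h2 h3
  subst he0
  have hex : ∀ i : ℕ, ∃ ψ : EuclideanSpace ℝ (Fin n) ≃ₗᵢ[ℝ] EuclideanSpace ℝ (Fin n),
      F (K i) (ψ '' L) < orb L (K i) + 1 / ((i : ℝ) + 1) := fun i =>
    exists_lt_of_ciInf_lt (lt_add_of_pos_right _ (by positivity))
  choose χ hχ using hex
  refine ⟨fun i => (χ i).symm, ?_⟩
  have hF : Tendsto (fun i => F ((χ i).symm '' K i) L) atTop (𝓝 0) := by
    have h1 : Tendsto (fun i : ℕ => orb L (K i) + 1 / ((i : ℝ) + 1)) atTop (𝓝 (0 + 0)) :=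
      he.add tendsto_one_div_add_atTop_nhds_zero_nat
    rw [add_zero] at h1
    refine squeeze_zero (fun i => F_nonneg _ _) (fun i => ?_) h1
    have h2 := F_image (χ i) ((χ i).symm '' K i) L
    have h3 : χ i '' ((χ i).symm '' K i) = K i := by
      rw [image_image]
      simp
    rw [h3] at h2
    rw [← h2]
    exact (hχ i).le
  refine tendsto_of_subseq_tendsto fun ns hns => ?_
  obtain ⟨L', φ', hφ', hL', hLc', hLn', hLR', hlim'⟩ := blaschke (R := R)
    (fun i => (χ (ns i)).symm '' K (ns i))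
    (fun i => (h.cpt _).image (LinearIsometryEquiv.continuous _))
    (fun i => (h.cvx _).linear_image (χ (ns i)).symm.toLinearEquiv.toLinearMap)
    (fun i => (h.ne _).image _) (fun i => image_subset_ball (h.sub _) _)
  have c1 : ∀ i, IsCompact ((χ (ns (φ' i))).symm '' K (ns (φ' i))) :=
    fun i => (h.cpt _).image (LinearIsometryEquiv.continuous _)
  have c2 : ∀ i, Convex ℝ ((χ (ns (φ' i))).symm '' K (ns (φ' i))) :=
    fun i => (h.cvx _).linear_image (χ (ns (φ' i))).symm.toLinearEquiv.toLinearMap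
  have c3 : ∀ i, ((χ (ns (φ' i))).symm '' K (ns (φ' i))).Nonempty := fun i => (h.ne _).image _
  have c4 : ∀ i, (χ (ns (φ' i))).symm '' K (ns (φ' i)) ⊆ closedBall 0 R :=
    fun i => image_subset_ball (h.sub _) _
  have hvL' : volume L' = volume (K 0) := by
    have h1 := tendsto_volume c3 hLn' c1 hL' c2 hLc' c4 hlim'
    have h2 : (fun i => volume ((χ (ns (φ' i))).symm '' K (ns (φ' i)))) =
        fun _ => volume (K 0) := funext fun i => by
      rw [cluster_volume_image _ (h.cpt _), h.vol]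
    rw [h2] at h1
    exact tendsto_nhds_unique h1 tendsto_const_nhds
  have h1 := tendsto_F c3 hLn' c1 hL' c2 hLc' c4 hL hlim'
  have h2 : Tendsto (fun i => F ((χ (ns (φ' i))).symm '' K (ns (φ' i))) L) atTop (𝓝 0) :=
    hF.comp (hns.comp hφ'.tendsto_atTop)
  have h3 : F L' L = 0 := tendsto_nhds_unique h1 h2
  have h4 : L' = L := eq_of_F hL' hL hLc' hLc (by rw [hvL']; exact h.pos)
    (by rw [hvL]; exact h.pos) h3
  subst h4
  exact ⟨φ', hlim'⟩

end MP_02d86d_gt
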