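import Pool.Agent.Work.MP_02d86d_gt.B.Mono
import Pool.Agent.Work.MP_02d86d_gt.B.Cluster

/-! The limits of isometric copies of symmetrals are convex bodies. -/

set_option autoImplicit false

namespace MP_02d86d_gt

open MeasureTheory Set Filter Topology Metric

/-- The limits of isometric copies are convex bodies. -/
theorem Iter.limit_body {n : ℕ} {R : ℝ} {u : ℕ → EuclideanSpace ℝ (Fin n)}
    {K : ℕ → Set (EuclideanSpace ℝ (Fin n))} (h : Iter R u K)
    {χ : ℕ → (EuclideanSpace ℝ (Fin n) ≃ₗᵢ[ℝ] EuclideanSpace ℝ (Fin n))}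
    {L : Set (EuclideanSpace ℝ (Fin n))} (hL : IsCompact L) (hLn : L.Nonempty)
    (hlim : Tendsto (fun i => hausdorffDist (χ i '' K i) L) atTop (𝓝 0)) :
    Convex ℝ L ∧ (interior L).Nonempty := by
  have c1 : ∀ i, IsCompact (χ i '' K i) :=
    fun i => (h.cpt _).image (LinearIsometryEquiv.continuous _)
  have c2 : ∀ i, Convex ℝ (χ i '' K i) :=
    fun i => (h.cvx _).linear_image (χ i).toLinearEquiv.toLinearMap
  have c3 : ∀ i, (χ i '' K i).Nonempty := fun i => (h.ne _).image _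
  have c4 : ∀ i, χ i '' K i ⊆ closedBall 0 R := fun i => image_subset_ball (h.sub _) _
  obtain ⟨L0, φ, hφ, hL0, hLc0, hLn0, hLr0, hlim0⟩ := blaschke _ c1 c2 c3 c4
  have hlim1 : Tendsto (fun i => hausdorffDist (χ (φ i) '' K (φ i)) L) atTop (𝓝 0) :=
    hlim.comp hφ.tendsto_atTop
  have hLL : L = L0 := by
    ext x
    constructor
    · intro hx
      obtain ⟨y, hy, hyx⟩ := hd_exists (fun i => c3 (φ i)) hLn (fun i => (c1 (φ i)).isBounded)
        hL.isBounded hlim1 hx
      exact hd_mem (fun i => c3 (φ i)) hLn0 (fun i => (c1 (φ i)).isBounded) hL0.isBounded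
        hL0.isClosed hlim0 hy hyx
    · intro hx
      obtain ⟨y, hy, hyx⟩ := hd_exists (fun i => c3 (φ i)) hLn0 (fun i => (c1 (φ i)).isBounded)
        hL0.isBounded hlim0 hx
      exact hd_mem (fun i => c3 (φ i)) hLn (fun i => (c1 (φ i)).isBounded) hL.isBounded
        hL.isClosed hlim1 hy hyx
  subst hLL
  refine ⟨hLc0, interior_nonempty_of_volume hLc0 ?_⟩
  have h1 := h.cluster hφ (fun i => χ (φ i)) hL hLc0 hLn hLr0 hlim1
  rw [h1.1]
  exact h.pos

end MP_02d86d_gt
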