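import Pool.Agent.Work.MP_02d86d_gt.Main

/-! Steiner symmetrization is monotone; truncation of a sequence of symmetrals. -/

set_option autoImplicit false

namespace MP_02d86d_gt

open MeasureTheory Set Filter Topology Metric

variable {n : ℕ}

theorem st_mono {u : EuclideanSpace ℝ (Fin n)} (hu : ‖u‖ = 1)
    {K L : Set (EuclideanSpace ℝ (Fin n))} (hL : IsCompact L) (h : K ⊆ L) :
    st u K ⊆ st u L := by
  intro x hx
  obtain ⟨t, y, rfl⟩ := exists_pt hu x
  rw [mem_st hu] at hx ⊢
  have hc : chord u K t ⊆ chord u L t := fun s hs => h hs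
  refine ⟨hx.1.mono hc, hx.2.trans ?_⟩
  exact ENNReal.toReal_mono (isCompact_chord hu hL t).measure_lt_top.ne (measure_mono hc)

theorem Iter.mono {R R' : ℝ} {u : ℕ → EuclideanSpace ℝ (Fin n)}
    {K L : ℕ → Set (EuclideanSpace ℝ (Fin n))} (hK : Iter R u K) (hL : Iter R' u L)
    (h0 : K 0 ⊆ L 0) (i : ℕ) : K i ⊆ L i := by
  induction i with
  | zero => exact h0
  | succ i ih =>
    rw [hK.step i, hL.step i]
    exact st_mono (hK.hu i) (hL.cpt i) ih

/-- The tail of a sequence of symmetrals. -/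
theorem Iter.tail {R : ℝ} {u : ℕ → EuclideanSpace ℝ (Fin n)}
    {K : ℕ → Set (EuclideanSpace ℝ (Fin n))} (h : Iter R u K) (N : ℕ) :
    Iter R (fun i => u (N + i)) fun i => K (N + i) where
  hu i := h.hu _
  step i := h.step (N + i)
  cpt i := h.cpt _
  cvx i := h.cvx _
  ne i := h.ne _
  sub i := h.sub _
  vol i := (h.vol _).trans (h.vol _).symm
  pos := by
    rw [h.vol]
    exact h.pos

/-- A convex set of positive volume has interior points. -/
theorem interior_nonempty_of_volume {K : Set (EuclideanSpace ℝ (Fin n))} (hc : Convex ℝ K)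
    (hv : volume K ≠ 0) : (interior K).Nonempty := by
  by_contra h
  rw [not_nonempty_iff_eq_empty] at h
  apply hv
  have h1 : K ⊆ frontier K := by
    intro x hx
    rw [frontier, h, sdiff_empty]
    exact subset_closure hx
  exact measure_mono_null h1 (hc.addHaar_frontier volume)

/-- The symmetrals along a sequence. -/
def seqSt (u : ℕ → EuclideanSpace ℝ (Fin n)) (K : Set (EuclideanSpace ℝ (Fin n))) :
    ℕ → Set (EuclideanSpace ℝ (Fin n))
  | 0 => K
  | i + 1 => st (u i) (seqSt u K i)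

/-- The symmetrals of a convex body form a sequence of symmetrals. -/
theorem iter_seqSt {r : ℝ} {u : ℕ → EuclideanSpace ℝ (Fin n)} (hu : ∀ i, ‖u i‖ = 1)
    {K : Set (EuclideanSpace ℝ (Fin n))} (h0 : IsCompact K) (hc : Convex ℝ K)
    (hr : K ⊆ closedBall 0 r) (hv : volume K ≠ 0) : Iter r u (seqSt u K) := by
  have hne : K.Nonempty := nonempty_iff_ne_empty.2 fun h => hv (by rw [h, measure_empty])
  have h : ∀ i, IsCompact (seqSt u K i) ∧ Convex ℝ (seqSt u K i) ∧ (seqSt u K i).Nonempty ∧
      seqSt u K i ⊆ closedBall 0 r ∧ volume (seqSt u K i) = volume K := by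
    intro i
    induction i with
    | zero => exact ⟨h0, hc, hne, hr, rfl⟩
    | succ i ih =>
      obtain ⟨a, b, c, d, e⟩ := ih
      exact ⟨isCompact_st (hu i) a b, convex_st (hu i) a b, st_nonempty (hu i) a b c,
        st_subset (hu i) a b d, (volume_st (hu i) a b).trans e⟩
  exact ⟨hu, fun i => rfl, fun i => (h i).1, fun i => (h i).2.1, fun i => (h i).2.2.1,
    fun i => (h i).2.2.2.1, fun i => (h i).2.2.2.2, hv⟩

/-- truncation of the body `K N` by the ball of radius `r` -/
theorem Iter.trunc {R r : ℝ} {u : ℕ → EuclideanSpace ℝ (Fin n)}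
    {K : ℕ → Set (EuclideanSpace ℝ (Fin n))} (hK : Iter R u K) (N : ℕ)
    (hv : volume (K N ∩ closedBall 0 r) ≠ 0) :
    ∃ K' : ℕ → Set (EuclideanSpace ℝ (Fin n)), Iter r (fun i => u (N + i)) K' ∧
      K' 0 = K N ∩ closedBall 0 r ∧ (interior (K' 0)).Nonempty ∧ ∀ i, K' i ⊆ K (N + i) := by
  have hc : Convex ℝ (K N ∩ closedBall 0 r) := (hK.cvx N).inter (convex_closedBall _ _)
  have h1 : Iter r (fun i => u (N + i)) (seqSt (fun i => u (N + i)) (K N ∩ closedBall 0 r)) :=
    iter_seqSt (fun i => hK.hu _) ((hK.cpt N).inter_right isClosed_closedBall) hc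
      inter_subset_right hv
  refine ⟨_, h1, rfl, interior_nonempty_of_volume hc hv, ?_⟩
  exact h1.mono (hK.tail N) inter_subset_left

end MP_02d86d_gt
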