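import Pool.Agent.Work.MP_02d86d_gt.Comp

/-! Bodies which contain, with every interior point, the centred ball through it; truncation of
convergent sequences of bodies. -/

set_option autoImplicit false

namespace MP_02d86d_gt

open MeasureTheory Set Filter Topology Metric

variable {n : ℕ}

/-- a convex body which contains the centred ball through every interior point is a centred
ball -/
theorem ball_of_radial {L : Set (EuclideanSpace ℝ (Fin n))} (hL : IsCompact L)
    (hc : Convex ℝ L) (hi : (interior L).Nonempty)
    (h : ∀ x ∈ interior L, closedBall 0 ‖x‖ ⊆ L) : ∃ r : ℝ, 0 < r ∧ L = closedBall 0 r := by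
  have hne : L.Nonempty := hi.mono interior_subset
  obtain ⟨x0, hx0, hmax⟩ := hL.exists_isMaxOn hne continuous_norm.continuousOn
  have hmax' : ∀ y ∈ L, ‖y‖ ≤ ‖x0‖ := fun y hy => hmax hy
  rcases eq_or_lt_of_le (norm_nonneg x0) with h0 | h0
  · -- the space is a point
    have hsub : L ⊆ {0} := fun y hy => by
      have h1 := hmax' y hy
      rw [← h0] at h1
      exact norm_le_zero_iff.1 h1
    have hss : Subsingleton (EuclideanSpace ℝ (Fin n)) := by
      by_contra hns
      rw [not_subsingleton_iff_nontrivial] at hns
      obtain ⟨y, hy⟩ := hi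
      have h2 := interior_mono hsub hy
      rw [interior_singleton] at h2
      exact h2
    refine ⟨1, one_pos, ?_⟩
    ext y
    refine ⟨fun _ => ?_, fun _ => ?_⟩
    · rw [mem_closedBall_zero_iff, Subsingleton.elim y 0, norm_zero]
      exact zero_le_one
    · rw [Subsingleton.elim y x0]
      exact hx0
  · refine ⟨‖x0‖, h0, Subset.antisymm (fun y hy => mem_closedBall_zero_iff.2 (hmax' y hy)) ?_⟩
    have hb : ball (0 : EuclideanSpace ℝ (Fin n)) ‖x0‖ ⊆ L := by
      intro y hy
      rw [mem_ball_zero_iff] at hy
      have hcl : x0 ∈ closure (interior L) := by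
        rw [hc.closure_interior_eq_closure_of_nonempty_interior hi]
        exact subset_closure hx0
      rw [_root_.mem_closure_iff] at hcl
      obtain ⟨z, hz, hzi⟩ := hcl {z | ‖y‖ < ‖z‖} (isOpen_lt continuous_const continuous_norm) hy
      exact h z hzi (mem_closedBall_zero_iff.2 (le_of_lt hz))
    rw [← closure_ball (0 : EuclideanSpace ℝ (Fin n)) h0.ne']
    exact closure_minimal hb hL.isClosed

/-- the truncation at an interior point has interior points -/
theorem interior_inter {L : Set (EuclideanSpace ℝ (Fin n))} {x : EuclideanSpace ℝ (Fin n)}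
    (hx : x ∈ interior L) (h0 : 0 < ‖x‖) : (interior (L ∩ closedBall 0 ‖x‖)).Nonempty := by
  have hcl : x ∈ closure (ball (0 : EuclideanSpace ℝ (Fin n)) ‖x‖) := by
    rw [closure_ball _ h0.ne', mem_closedBall_zero_iff]
  rw [_root_.mem_closure_iff] at hcl
  obtain ⟨z, hz, hzb⟩ := hcl (interior L) isOpen_interior hx
  refine ⟨z, ?_⟩
  rw [_root_.interior_inter]
  exact ⟨hz, ball_subset_interior_closedBall hzb⟩

/-- the volumes of the truncations converge -/
theorem tendsto_volume_inter {K : ℕ → Set (EuclideanSpace ℝ (Fin n))}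
    {L : Set (EuclideanSpace ℝ (Fin n))} {R : ℝ} (hK : ∀ i, (K i).Nonempty) (hL : L.Nonempty)
    (cK : ∀ i, IsCompact (K i)) (cL : IsCompact L) (vK : ∀ i, Convex ℝ (K i)) (vL : Convex ℝ L)
    (bK : ∀ i, K i ⊆ closedBall 0 R)
    (h : Tendsto (fun i => hausdorffDist (K i) L) atTop (𝓝 0)) (r : ℝ) :
    Tendsto (fun i => volume (K i ∩ closedBall 0 r)) atTop
      (𝓝 (volume (L ∩ closedBall 0 r))) := by
  refine tendsto_measure_of_ae_tendsto_indicator atTop
    (cL.measurableSet.inter measurableSet_closedBall)
    (fun i => (cK i).measurableSet.inter measurableSet_closedBall)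
    (B := closedBall 0 R) measurableSet_closedBall measure_closedBall_lt_top.ne
    (Eventually.of_forall fun i => inter_subset_left.trans (bK i)) ?_
  filter_upwards [ae_mem_iff hK hL cK cL vK vL h] with x hx
  filter_upwards [hx] with i hi
  exact and_congr_left fun _ => hi

end MP_02d86d_gt
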