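import Pool.Agent.Work.MP_02d86d_gt.Comp

/-! Inner approximation of a convex body in volume gives Hausdorff convergence. -/

set_option autoImplicit false

namespace MP_02d86d_gt

open MeasureTheory Set Filter Topology Metric

variable {n : ℕ}

theorem eq_of_subset_volume {L M : Set (EuclideanSpace ℝ (Fin n))} (hL : IsCompact L)
    (hMc : Convex ℝ M) (hMi : (interior M).Nonempty) (hLM : L ⊆ M)
    (hv : volume L = volume M) : L = M := by
  refine Subset.antisymm hLM ?_
  have h1 : interior M ⊆ L := by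
    intro x hx
    by_contra hxL
    have hU : IsOpen (interior M ∩ Lᶜ) := isOpen_interior.inter hL.isClosed.isOpen_compl
    have h2 : 0 < volume (interior M ∩ Lᶜ) := hU.measure_pos volume ⟨x, hx, hxL⟩
    have h3 : volume (M \ L) = 0 := by
      rw [measure_sdiff hLM hL.measurableSet.nullMeasurableSet hL.measure_lt_top.ne, hv, tsub_self]
    have h4 : interior M ∩ Lᶜ ⊆ M \ L := fun y hy => ⟨interior_subset hy.1, hy.2⟩
    exact absurd (measure_mono_null h4 h3) h2.ne'
  have h2 : closure (interior M) = closure M :=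
    hMc.closure_interior_eq_closure_of_nonempty_interior hMi
  calc M ⊆ closure M := subset_closure
    _ = closure (interior M) := h2.symm
    _ ⊆ closure L := closure_mono h1
    _ = L := hL.isClosed.closure_eq

theorem tendsto_of_volume {M : Set (EuclideanSpace ℝ (Fin n))} (hM : IsCompact M)
    (hMc : Convex ℝ M) (hMi : (interior M).Nonempty) {E : ℕ → Set (EuclideanSpace ℝ (Fin n))}
    (cE : ∀ k, IsCompact (E k)) (vE : ∀ k, Convex ℝ (E k)) (nE : ∀ k, (E k).Nonempty)
    (hEM : ∀ k, E k ⊆ M) (hv : Tendsto (fun k => volume (E k)) atTop (𝓝 (volume M))) :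
    ∃ φ : ℕ → ℕ, StrictMono φ ∧ Tendsto (fun k => hausdorffDist (E (φ k)) M) atTop (𝓝 0) := by
  obtain ⟨R, hR⟩ := hM.isBounded.subset_closedBall 0
  have bE : ∀ k, E k ⊆ closedBall 0 R := fun k => (hEM k).trans hR
  obtain ⟨L, φ, hφ, hL, hLc, hLn, hLR, hlim⟩ := blaschke E cE vE nE bE
  have hLM : L ⊆ M := by
    intro x hx
    obtain ⟨y, hy, hyx⟩ := hd_exists (fun i => nE (φ i)) hLn
      (fun i => (cE (φ i)).isBounded) hL.isBounded hlim hx
    exact hM.isClosed.mem_of_tendsto hyx (Eventually.of_forall fun i => hEM _ (hy i))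
  have hvL : volume L = volume M := by
    have h1 := tendsto_volume (fun i => nE (φ i)) hLn (fun i => cE (φ i)) hL
      (fun i => vE (φ i)) hLc (fun i => bE (φ i)) hlim
    exact tendsto_nhds_unique h1 (hv.comp hφ.tendsto_atTop)
  have h := eq_of_subset_volume hL hMc hMi hLM hvL
  subst h
  exact ⟨φ, hφ, hlim⟩

end MP_02d86d_gt
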